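import Pool.Agent.L7h36.CJC.Colour
import Pool.Agent.L7h36.CJC.Build

/-!
# Canonical join complexes are not closed under induced subcomplexes

* If the independence complex of a triangle-free graph is the canonical join complex of a finite
  semidistributive lattice, then the graph is 3-colourable (`colourable`). For join-irreducible `x`
  let `κ x` be the largest element `w` with `x ∧ w = x_*`, and write `x → y` if `x ≰ κ y`. Two
  join-irreducible elements form a face if and only if there is no arrow between them; each arrow
  `x → y` factors through some `z` with `z ≤ x` and `κ y ≤ κ z`, so `x → z → y`, and in a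
  triangle-free graph `z ∈ {x, y}`. It follows that `x` is a source or `y` is a sink, and sources,
  sinks and other vertices are the classes of a proper colouring.
* Every finite graph is an induced subgraph of a graph whose independence complex is a canonical join
  complex: orient it without directed cycles of length two and add a vertex `z` with `x → z → y` for
  every arrow `x → y`. The closed sets of this relation form a finite semidistributive lattice.
* The shift graph of the pairs from nine points is triangle-free and not 3-colourable.
-/

set_option autoImplicit false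

namespace Pool.Agent.Results.MP_b1aa48_co.NotInduced

open Pool.Agent.L7h36.CJC

universe u

/-- The vertices of the shift graph. -/
abbrev V : Type := {p : Fin 9 × Fin 9 // p.1 < p.2}

/-- The arrows of the shift graph. -/
def D (u v : V) : Prop := u.1.2 = v.1.1

/-- The vertices of the shift graph and its arrows. -/
abbrev S : Type := V ⊕ {e : V × V // D e.1 e.2}

/-- The relation with all midpoints added. -/
def R : S → S → Prop
  | .inl u, .inl v => u = v ∨ D u v
  | .inl u, .inr e => u = e.1.1
  | .inr e, .inl v => v = e.1.2
  | .inr e, .inr e' => e = e'

theorem D_asymm (u v : V) (h1 : D u v) (h2 : D v u) : False := by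
  have a := u.2
  have b := v.2
  unfold D at h1 h2
  omega

theorem fac : Fac R where
  refl := by
    rintro (u | e)
    · exact Or.inl rfl
    · exact rfl
  anti := by
    rintro (u | e) (v | f) h1 h2
    · rcases h1 with rfl | h1
      · rfl
      · rcases h2 with rfl | h2
        · rfl
        · exact (D_asymm _ _ h1 h2).elim
    · change u = f.1.1 at h1
      change u = f.1.2 at h2
      have := f.2
      rw [← h1, ← h2] at this
      exact (D_asymm _ _ this this).elim
    · change v = e.1.2 at h1
      change v = e.1.1 at h2
      have := e.2
      rw [← h1, ← h2] at this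
      exact (D_asymm _ _ this this).elim
    · change e = f at h1
      rw [h1]
  fac := by
    rintro (u | e) (v | f) h
    · rcases h with rfl | h
      · exact ⟨.inl u, fun w hw => hw, fun w hw => hw⟩
      · refine ⟨.inr ⟨(u, v), h⟩, ?_, ?_⟩
        · rintro (w | g) hw
          · change w = v at hw
            subst hw
            exact Or.inr h
          · change _ = g at hw
            subst hw
            rfl
        · rintro (w | g) hw
          · change w = u at hw
            subst hw
            exact Or.inr h
          · change g = _ at hw
            subst hw
            rfl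
    · change u = f.1.1 at h
      subst h
      refine ⟨.inr f, ?_, fun w hw => hw⟩
      rintro (w | g) hw
      · change w = f.1.2 at hw
        subst hw
        exact Or.inr f.2
      · change f = g at hw
        subst hw
        rfl
    · change v = e.1.2 at h
      subst h
      refine ⟨.inr e, fun w hw => hw, ?_⟩
      rintro (w | g) hw
      · change w = e.1.1 at hw
        subst hw
        exact Or.inr e.2
      · change g = e at hw
        subst hw
        rfl
    · exact ⟨.inr e, fun w hw => hw, fun w hw => by change e = f at h; rw [← h]; exact hw⟩

/-- The shift graph on nine points is not 3-colourable. -/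
theorem not_three (c : V → Fin 3) (h : ∀ u v, D u v → c u ≠ c v) : False := by
  classical
  let C : Fin 9 → Finset (Fin 3) := fun i => Finset.univ.filter (fun k => ∃ v : V, v.1.1 = i ∧ c v = k)
  have hC : Function.Injective C := by
    have key : ∀ i j : Fin 9, i < j → C i ≠ C j := by
      intro i j hij he
      have h1 : c ⟨(i, j), hij⟩ ∈ C i := by
        simp only [C, Finset.mem_filter, Finset.mem_univ, true_and]
        exact ⟨_, rfl, rfl⟩
      rw [he] at h1
      simp only [C, Finset.mem_filter, Finset.mem_univ, true_and] at h1
      obtain ⟨v, hv, hv2⟩ := h1
      exact h ⟨(i, j), hij⟩ v hv.symm hv2.symm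
    intro i j hij
    rcases lt_trichotomy i j with h1 | h1 | h1
    · exact (key i j h1 hij).elim
    · exact h1
    · exact (key j i h1 hij.symm).elim
  have := Fintype.card_le_of_injective C hC
  simp at this

/-- **The class of canonical join complexes of finite semidistributive lattices is not closed under
induced subcomplexes** (the answer to Q1 is negative). -/
theorem result : ∃ (L : Type) (_ : Lattice L) (_ : OrderBot L) (_ : Finite L), Semidistributive L ∧
    ∃ W : Set {x : L // SupIrred x}, ∀ (L' : Type u) [Lattice L'] [OrderBot L'] [Finite L'],
      Semidistributive L' → ¬ Iso (induced (cjc L) W) (cjc L') := by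
  classical
  refine ⟨Lat R, inferInstance, inferInstance, inferInstance, semidistributive fac, ?_⟩
  let g : V → {x : Lat R // SupIrred x} := fun v => ⟨gen R (.inl v), gen_irred fac _⟩
  have hg : Function.Injective g := by
    intro u v huv
    exact Sum.inl_injective (gen_inj fac (congrArg Subtype.val huv))
  refine ⟨Set.range g, ?_⟩
  intro L' _ _ _ hL' hiso
  obtain ⟨φ, hφ⟩ := hiso
  let ψ : V ≃ {x : L' // SupIrred x} := (Equiv.ofInjective g hg).trans φ
  have hface : ∀ u v : V, u ≠ v →
      ((D u v ∨ D v u) ↔ ¬ ((ψ u).1 ≤ kap (ψ v).1 ∧ (ψ v).1 ≤ kap (ψ u).1)) := by
    intro u v huv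
    have h1 := hφ {Equiv.ofInjective g hg u, Equiv.ofInjective g hg v}
    have hne : (ψ u).1 ≠ (ψ v).1 := fun h => huv (ψ.injective (Subtype.ext h))
    rw [← pair_face_iff hL' (ψ u).2 (ψ v).2 hne]
    have h2 : ({Equiv.ofInjective g hg u, Equiv.ofInjective g hg v} : Finset (Set.range g)).map
        φ.toEmbedding ∈ cjc L' ↔ ∃ w, IsCanonicalJoinRep ({(ψ u).1, (ψ v).1} : Finset L') w := by
      unfold cjc
      rw [Set.mem_ofPred_eq, Finset.map_insert, Finset.map_singleton, Finset.map_insert,
        Finset.map_singleton]
      rfl
    have h3 : ({Equiv.ofInjective g hg u, Equiv.ofInjective g hg v} : Finset (Set.range g)) ∈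
        induced (cjc (Lat R)) (Set.range g) ↔ ¬ R (.inl u) (.inl v) ∧ ¬ R (.inl v) (.inl u) := by
      rw [← face_iff fac (fun h => huv (Sum.inl_injective h))]
      unfold induced cjc
      rw [Set.mem_ofPred_eq, Set.mem_ofPred_eq, Finset.map_insert, Finset.map_singleton,
        Finset.map_insert, Finset.map_singleton]
      rfl
    rw [← h2, ← h1, h3]
    have h4 : R (.inl u) (.inl v) ↔ D u v := by
      change (u = v ∨ D u v) ↔ _
      simp [huv]
    have h5 : R (.inl v) (.inl u) ↔ D v u := by
      change (v = u ∨ D v u) ↔ _
      simp [huv.symm]
    rw [h4, h5]
    tauto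
  obtain ⟨c, hc⟩ := colourable hL' (fun u v => D u v ∨ D v u) (fun u v h => h.symm)
    (by
      intro u v w h1 h2 h3
      have a1 := u.2
      have a2 := v.2
      have a3 := w.2
      unfold D at h1 h2 h3
      omega) ψ hface
  apply not_three c
  intro u v huv
  apply hc u v
  · rintro rfl
    exact D_asymm _ _ huv huv
  · exact Or.inl huv

end Pool.Agent.Results.MP_b1aa48_co.NotInduced
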